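import Pool.Agent.FUR.Stmts

set_option autoImplicit false

open Finset

namespace Pool.Agent.FUR.H56

open Pool.Agent.FUR

variable {N : ℕ}

theorem cnt_pos_lv (v : Fin N) (F : Fm (Fin N)) : F.cnt v ≤ F.lv := by
  induction F with
  | cst c => simp [Fm.cnt, Fm.lv]
  | lit w c =>
    simp only [Fm.cnt, Fm.lv]
    split_ifs <;> omega
  | and F G ihF ihG => simp only [Fm.cnt, Fm.lv]; omega
  | or F G ihF ihG => simp only [Fm.cnt, Fm.lv]; omega

theorem put_lv (v : Fin N) (b : Bool) (F : Fm (Fin N)) : (F.put v b).lv + F.cnt v = F.lv := by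
  induction F with
  | cst c => simp [Fm.put, Fm.cnt, Fm.lv]
  | lit w c =>
    simp only [Fm.put, Fm.cnt]
    split_ifs <;> simp [Fm.lv]
  | and F G ihF ihG => simp only [Fm.put, Fm.cnt, Fm.lv]; omega
  | or F G ihF ihG => simp only [Fm.put, Fm.cnt, Fm.lv]; omega

theorem put_nd (v : Fin N) (b : Bool) (F : Fm (Fin N)) : (F.put v b).nd = F.nd := by
  induction F with
  | cst c => simp [Fm.put, Fm.nd]
  | lit w c =>
    simp only [Fm.put]
    split_ifs <;> simp [Fm.nd]
  | and F G ihF ihG => simp only [Fm.put, Fm.nd]; omega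
  | or F G ihF ihG => simp only [Fm.put, Fm.nd]; omega

theorem put_ev (v : Fin N) (b : Bool) (F : Fm (Fin N)) (x : Fin N → Bool) (h : x v = b) :
    (F.put v b).ev x = F.ev x := by
  induction F with
  | cst c => simp [Fm.put, Fm.ev]
  | lit w c =>
    simp only [Fm.put]
    split_ifs with hw
    · subst hw
      simp [Fm.ev, h]
    · rfl
  | and F G ihF ihG => simp only [Fm.put, Fm.ev, ihF, ihG]
  | or F G ihF ihG => simp only [Fm.put, Fm.ev, ihF, ihG]

theorem nd_pos (F : Fm (Fin N)) : 1 ≤ F.nd := by
  cases F <;> simp [Fm.nd]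

/-- the properties of the reduced form -/
def Gd (F F' : Fm (Fin N)) : Prop :=
  (∀ x, F'.ev x = F.ev x) ∧ F'.lv ≤ F.lv ∧ F'.nd ≤ F.nd ∧ F'.red ∧ ((∃ b, F' = Fm.cst b) ∨ F'.noc)

theorem nrm_aux : ∀ (k : ℕ) (F : Fm (Fin N)), F.lv + F.nd ≤ k → ∃ F', Gd F F' := by
  intro k
  induction k with
  | zero =>
    intro F hF
    have := nd_pos F
    omega
  | succ k ih =>
    intro F hF
    cases F with
    | cst c =>
      exact ⟨Fm.cst c, fun _ => rfl, le_rfl, le_rfl, trivial, Or.inl ⟨c, rfl⟩⟩
    | lit w c =>
      exact ⟨Fm.lit w c, fun _ => rfl, le_rfl, le_rfl, trivial, Or.inr trivial⟩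
    | and G H =>
      simp only [Fm.lv, Fm.nd] at hF
      obtain ⟨G', g1, g2, g3, g4, g5⟩ := ih G (by omega)
      obtain ⟨H', h1, h2, h3, h4, h5⟩ := ih H (by omega)
      rcases g5 with ⟨b, rfl⟩ | g5
      · have g1' : ∀ x, G.ev x = b := fun x => (g1 x).symm
        cases b with
        | false =>
          refine ⟨Fm.cst false, ?_, ?_, ?_, trivial, Or.inl ⟨false, rfl⟩⟩
          · intro x
            simp only [Fm.ev, g1' x, Bool.false_and]
          · simp [Fm.lv]
          · simp [Fm.nd]
        | true =>
          refine ⟨H', ?_, ?_, ?_, h4, h5⟩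
          · intro x
            simp only [Fm.ev, g1' x, Bool.true_and, h1]
          · simp only [Fm.lv]; omega
          · simp only [Fm.nd]; omega
      rcases h5 with ⟨b, rfl⟩ | h5
      · have h1' : ∀ x, H.ev x = b := fun x => (h1 x).symm
        cases b with
        | false =>
          refine ⟨Fm.cst false, ?_, ?_, ?_, trivial, Or.inl ⟨false, rfl⟩⟩
          · intro x
            simp only [Fm.ev, h1' x, Bool.and_false]
          · simp [Fm.lv]
          · simp [Fm.nd]
        | true =>
          refine ⟨G', ?_, ?_, ?_, g4, Or.inr g5⟩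
          · intro x
            simp only [Fm.ev, h1' x, Bool.and_true, g1]
          · simp only [Fm.lv]; omega
          · simp only [Fm.nd]; omega
      by_cases c1 : ∃ v b, G' = Fm.lit v b ∧ H'.cnt v ≠ 0
      · obtain ⟨v, b, rfl, hv⟩ := c1
        have e1 := put_lv v b H'
        have e2 := put_nd v b H'
        obtain ⟨F', f1, f2, f3, f4, f5⟩ := ih (Fm.and (Fm.lit v b) (H'.put v b)) (by
          simp only [Fm.lv, Fm.nd] at g2 g3 ⊢
          omega)
        refine ⟨F', ?_, ?_, ?_, f4, f5⟩
        · intro x
          rw [f1]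
          have g1x := g1 x
          simp only [Fm.ev] at g1x ⊢
          rw [← g1x, ← h1 x]
          by_cases hx : x v = b
          · rw [put_ev v b H' x hx]
          · have : (x v == b) = false := by simpa using hx
            rw [this, Bool.false_and, Bool.false_and]
        · simp only [Fm.lv] at f2 g2 ⊢
          omega
        · simp only [Fm.nd] at f3 g3 ⊢
          omega
      by_cases c2 : ∃ v b, H' = Fm.lit v b ∧ G'.cnt v ≠ 0
      · obtain ⟨v, b, rfl, hv⟩ := c2
        have e1 := put_lv v b G'
        have e2 := put_nd v b G'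
        obtain ⟨F', f1, f2, f3, f4, f5⟩ := ih (Fm.and (G'.put v b) (Fm.lit v b)) (by
          simp only [Fm.lv, Fm.nd] at h2 h3 ⊢
          omega)
        refine ⟨F', ?_, ?_, ?_, f4, f5⟩
        · intro x
          rw [f1]
          have h1x := h1 x
          simp only [Fm.ev] at h1x ⊢
          rw [← h1x, ← g1 x]
          by_cases hx : x v = b
          · rw [put_ev v b G' x hx]
          · have : (x v == b) = false := by simpa using hx
            rw [this, Bool.and_false, Bool.and_false]
        · simp only [Fm.lv] at f2 h2 ⊢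
          omega
        · simp only [Fm.nd] at f3 h3 ⊢
          omega
      push Not at c1 c2
      refine ⟨Fm.and G' H', ?_, ?_, ?_, ⟨g4, h4, c1, c2⟩, Or.inr ⟨g5, h5⟩⟩
      · intro x
        simp only [Fm.ev, g1, h1]
      · simp only [Fm.lv]; omega
      · simp only [Fm.nd]; omega
    | or G H =>
      simp only [Fm.lv, Fm.nd] at hF
      obtain ⟨G', g1, g2, g3, g4, g5⟩ := ih G (by omega)
      obtain ⟨H', h1, h2, h3, h4, h5⟩ := ih H (by omega)
      rcases g5 with ⟨b, rfl⟩ | g5
      · have g1' : ∀ x, G.ev x = b := fun x => (g1 x).symm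
        cases b with
        | true =>
          refine ⟨Fm.cst true, ?_, ?_, ?_, trivial, Or.inl ⟨true, rfl⟩⟩
          · intro x
            simp only [Fm.ev, g1' x, Bool.true_or]
          · simp [Fm.lv]
          · simp [Fm.nd]
        | false =>
          refine ⟨H', ?_, ?_, ?_, h4, h5⟩
          · intro x
            simp only [Fm.ev, g1' x, Bool.false_or, h1]
          · simp only [Fm.lv]; omega
          · simp only [Fm.nd]; omega
      rcases h5 with ⟨b, rfl⟩ | h5
      · have h1' : ∀ x, H.ev x = b := fun x => (h1 x).symm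
        cases b with
        | true =>
          refine ⟨Fm.cst true, ?_, ?_, ?_, trivial, Or.inl ⟨true, rfl⟩⟩
          · intro x
            simp only [Fm.ev, h1' x, Bool.or_true]
          · simp [Fm.lv]
          · simp [Fm.nd]
        | false =>
          refine ⟨G', ?_, ?_, ?_, g4, Or.inr g5⟩
          · intro x
            simp only [Fm.ev, h1' x, Bool.or_false, g1]
          · simp only [Fm.lv]; omega
          · simp only [Fm.nd]; omega
      by_cases c1 : ∃ v b, G' = Fm.lit v b ∧ H'.cnt v ≠ 0
      · obtain ⟨v, b, rfl, hv⟩ := c1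
        have e1 := put_lv v (!b) H'
        have e2 := put_nd v (!b) H'
        obtain ⟨F', f1, f2, f3, f4, f5⟩ := ih (Fm.or (Fm.lit v b) (H'.put v (!b))) (by
          simp only [Fm.lv, Fm.nd] at g2 g3 ⊢
          omega)
        refine ⟨F', ?_, ?_, ?_, f4, f5⟩
        · intro x
          rw [f1]
          have g1x := g1 x
          simp only [Fm.ev] at g1x ⊢
          rw [← g1x, ← h1 x]
          by_cases hx : x v = b
          · have : (x v == b) = true := by simpa using hx
            rw [this, Bool.true_or, Bool.true_or]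
          · have hx' : x v = !b := by
              cases hb : x v <;> cases b <;> simp_all
            rw [put_ev v (!b) H' x hx']
        · simp only [Fm.lv] at f2 g2 ⊢
          omega
        · simp only [Fm.nd] at f3 g3 ⊢
          omega
      by_cases c2 : ∃ v b, H' = Fm.lit v b ∧ G'.cnt v ≠ 0
      · obtain ⟨v, b, rfl, hv⟩ := c2
        have e1 := put_lv v (!b) G'
        have e2 := put_nd v (!b) G'
        obtain ⟨F', f1, f2, f3, f4, f5⟩ := ih (Fm.or (G'.put v (!b)) (Fm.lit v b)) (by
          simp only [Fm.lv, Fm.nd] at h2 h3 ⊢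
          omega)
        refine ⟨F', ?_, ?_, ?_, f4, f5⟩
        · intro x
          rw [f1]
          have h1x := h1 x
          simp only [Fm.ev] at h1x ⊢
          rw [← h1x, ← g1 x]
          by_cases hx : x v = b
          · have : (x v == b) = true := by simpa using hx
            rw [this, Bool.or_true, Bool.or_true]
          · have hx' : x v = !b := by
              cases hb : x v <;> cases b <;> simp_all
            rw [put_ev v (!b) G' x hx']
        · simp only [Fm.lv] at f2 h2 ⊢
          omega
        · simp only [Fm.nd] at f3 h3 ⊢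
          omega
      push Not at c1 c2
      refine ⟨Fm.or G' H', ?_, ?_, ?_, ⟨g4, h4, c1, c2⟩, Or.inr ⟨g5, h5⟩⟩
      · intro x
        simp only [Fm.ev, g1, h1]
      · simp only [Fm.lv]; omega
      · simp only [Fm.nd]; omega

theorem nrm : NRMStmt := by
  intro N F
  obtain ⟨F', h1, h2, _, h4, h5⟩ := nrm_aux (F.lv + F.nd) F le_rfl
  exact ⟨F', h1, h2, h4, h5⟩

end Pool.Agent.FUR.H56
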